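import Pool.Agent.H193R5.EG.Stmts
import Pool.Agent.H88R2.DC.ORD

set_option autoImplicit false

open MvPolynomial Pool.Agent.H88R2.DC

namespace Pool.Agent.H87R3.EG

open Pool.Agent.H193R5.EG

variable {K : Type} [Field K] [CharZero K]

theorem hom_of_dvd {p f : MvPolynomial (Fin 2) K} {n : ℕ} (hf : f.IsHomogeneous n) (h0 : f ≠ 0)
    (h : p ∣ f) : ∃ m, p.IsHomogeneous m := by
  obtain ⟨r, rfl⟩ := h
  exact ord_hom_of_mul (w := 1) hf h0

theorem hom_zero {p : MvPolynomial (Fin 2) K} (h : p.IsHomogeneous 0) : ∃ c, p = C c :=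
  ord_hom_zero (w := 1) (by simp) h

theorem hom_one {p : MvPolynomial (Fin 2) K} (h : p.IsHomogeneous 1) :
    ∃ a b, p = C a * X 0 + C b * X 1 := by
  refine ⟨coeff (Finsupp.single 0 1) p, coeff (Finsupp.single 1 1) p, ?_⟩
  ext d
  rw [coeff_add, coeff_C_mul, coeff_C_mul, coeff_X', coeff_X']
  by_cases hd : d.degree = 1
  · have hd2 : d 0 + d 1 = 1 := by
      rw [Finsupp.degree_eq_sum, Fin.sum_univ_two] at hd
      exact hd
    rcases Nat.eq_zero_or_pos (d 0) with h0 | h0
    · have : d = Finsupp.single 1 1 := by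
        ext i
        fin_cases i
        · simp [h0]
        · simp; omega
      subst this
      have h3 : (Finsupp.single 0 1 : Fin 2 →₀ ℕ) ≠ Finsupp.single 1 1 := by
        intro e
        have := DFunLike.congr_fun e 0
        simp at this
      rw [if_neg h3, if_pos rfl]
      ring
    · have : d = Finsupp.single 0 1 := by
        ext i
        fin_cases i
        · simp; omega
        · simp; omega
      subst this
      have h3 : (Finsupp.single 1 1 : Fin 2 →₀ ℕ) ≠ Finsupp.single 0 1 := by
        intro e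
        have := DFunLike.congr_fun e 0
        simp at this
      rw [if_neg h3, if_pos rfl]
      ring
  · have h1 : coeff d p = 0 := h.coeff_eq_zero hd
    rw [h1, if_neg, if_neg]
    · ring
    · rintro rfl
      simp [Finsupp.degree_eq_sum] at hd
    · rintro rfl
      simp [Finsupp.degree_eq_sum] at hd

theorem hom_deg {p r : MvPolynomial (Fin 2) K} {a b n : ℕ} (hp : p.IsHomogeneous a)
    (hr : r.IsHomogeneous b) (h : (p * r).IsHomogeneous n) (h0 : p * r ≠ 0) : n = a + b :=
  IsHomogeneous.inj_right h (hp.mul hr) h0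

theorem irr_pos {q : MvPolynomial (Fin 2) K} (hq : Irreducible q) {e : ℕ}
    (h : q.IsHomogeneous e) : 1 ≤ e := by
  rcases Nat.eq_zero_or_pos e with rfl | he
  · exfalso
    obtain ⟨c, rfl⟩ := hom_zero h
    have hc : c ≠ 0 := by
      rintro rfl
      exact hq.ne_zero (by simp)
    exact hq.not_isUnit ((isUnit_iff_ne_zero.2 hc).map C)
  · exact he

/-- an irreducible factor with its multiplicity -/
theorem exists_factor {f : MvPolynomial (Fin 2) K} {n : ℕ} (hn : 1 ≤ n) (hf : f.IsHomogeneous n)
    (h0 : f ≠ 0) : ∃ (q g : MvPolynomial (Fin 2) K) (m e b : ℕ), Irreducible q ∧ 1 ≤ m ∧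
      f = q ^ m * g ∧ ¬ q ∣ g ∧ ¬ q ^ (m + 1) ∣ f ∧ q.IsHomogeneous e ∧ 1 ≤ e ∧
      g.IsHomogeneous b ∧ n = m * e + b := by
  have hu : ¬ IsUnit f := by
    intro hu
    rw [MvPolynomial.isUnit_iff_eq_C_of_isReduced] at hu
    obtain ⟨c, _, rfl⟩ := hu
    have h1 : (C c : MvPolynomial (Fin 2) K).IsHomogeneous 0 := isHomogeneous_C _ _
    have := IsHomogeneous.inj_right hf h1 h0
    omega
  obtain ⟨q, hq, hqf⟩ := WfDvdMonoid.exists_irreducible_factor hu h0
  have hfin : FiniteMultiplicity q f := FiniteMultiplicity.of_not_isUnit hq.not_isUnit h0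
  obtain ⟨g, hg, hqg⟩ := hfin.exists_eq_pow_mul_and_not_dvd
  set m := multiplicity q f
  have hm : 1 ≤ m := by
    rcases Nat.eq_zero_or_pos m with h | h
    · exfalso
      rw [h, pow_zero, one_mul] at hg
      exact hqg (hg ▸ hqf)
    · exact h
  obtain ⟨e, he⟩ := hom_of_dvd hf h0 hqf
  have hgf : g ∣ f := ⟨q ^ m, by rw [hg]; ring⟩
  obtain ⟨b, hb⟩ := hom_of_dvd hf h0 hgf
  refine ⟨q, g, m, e, b, hq, hm, hg, hqg, ?_, he, irr_pos hq he, hb, ?_⟩
  · exact hfin.not_pow_dvd_of_multiplicity_lt (Nat.lt_succ_self _)
  · have h1 := hom_deg (he.pow m) hb (hg ▸ hf) (hg ▸ h0)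
    rw [h1]
    ring

theorem form_holds : FORM := by
  intro K _ _ f n hn hf h0 H
  obtain ⟨q, g, m, e, b, hq, hm, hfg, hqg, hqm, he, he1, hb, hnn⟩ := exists_factor hn hf h0
  have hn2 : n ≤ 2 * m := H q m hq hm ⟨g, hfg⟩ hqm
  have hg0 : g ≠ 0 := by
    rintro rfl
    exact hqg (dvd_zero _)
  rcases Nat.eq_zero_or_pos b with hb0 | hb0
  · subst hb0
    obtain ⟨c, rfl⟩ := hom_zero hb
    have hc : c ≠ 0 := by
      rintro rfl
      exact hg0 (by simp)
    have he2 : e ≤ 2 := by
      by_contra hcon
      have : m * 3 ≤ m * e := Nat.mul_le_mul_left _ (by omega)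
      omega
    have he12 : e = 1 ∨ e = 2 := by omega
    rcases he12 with rfl | rfl
    · left
      obtain ⟨a, b, hab⟩ := hom_one he
      refine ⟨c, a, b, hc, ?_, ?_⟩
      · by_contra hcon
        push Not at hcon
        apply hq.ne_zero
        rw [hab, hcon.1, hcon.2]
        simp
      · rw [hfg, ← hab, hnn]
        simp only [mul_one, add_zero]
        ring
    · right; right
      refine ⟨m, c, q, by omega, hc, hq, he, ?_⟩
      rw [hfg]
      ring
  · obtain ⟨q', g', m', e', b', hq', hm', hgg', hqg', -, he', he1', hb', hnn'⟩ :=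
      exists_factor hb0 hb hg0
    have hnd : ¬ q' ∣ q := by
      intro h
      have : Associated q' q := hq'.associated_of_dvd hq h
      apply hqg
      refine this.symm.dvd.trans ?_
      rw [hgg']
      exact (dvd_pow_self q' (by omega)).mul_right _
    have hprime : Prime q' := hq'.prime
    have hnd' : ¬ q' ∣ q ^ m := fun h => hnd (hprime.dvd_of_dvd_pow h)
    have hn2' : n ≤ 2 * m' := by
      apply H q' m' hq' hm'
      · rw [hfg, hgg']
        exact (dvd_mul_right _ _).mul_left _
      · intro h
        rw [hfg] at h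
        have h1 := hprime.pow_dvd_of_dvd_mul_left (m' + 1) hnd' h
        rw [hgg', pow_succ] at h1
        have h2 : q' ∣ g' := by
          obtain ⟨r, hr⟩ := h1
          refine ⟨r, ?_⟩
          have h3 : q' ^ m' ≠ 0 := pow_ne_zero _ hq'.ne_zero
          apply mul_left_cancel₀ h3
          rw [hr]
          ring
        exact hqg' h2
    have h1 : m ≤ m * e := Nat.le_mul_of_pos_right _ he1
    have h2 : m' ≤ m' * e' := Nat.le_mul_of_pos_right _ he1'
    have hb'0 : b' = 0 := by omega
    have hme : m * e = m * 1 := by omega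
    have hme' : m' * e' = m' * 1 := by omega
    have hmm : m = m' := by omega
    have hnm : n = 2 * m := by omega
    have hee : e = 1 := Nat.eq_of_mul_eq_mul_left (by omega) hme
    have hee' : e' = 1 := Nat.eq_of_mul_eq_mul_left (by omega) hme'
    subst hb'0
    subst hee
    subst hee'
    subst hmm
    obtain ⟨c, rfl⟩ := hom_zero hb'
    have hg'0 : (C c : MvPolynomial (Fin 2) K) ≠ 0 := by
      intro h
      rw [h] at hqg'
      exact hqg' (dvd_zero _)
    have hc : c ≠ 0 := by
      rintro rfl
      exact hg'0 (by simp)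
    obtain ⟨a, b, hab⟩ := hom_one he
    obtain ⟨a', b', hab'⟩ := hom_one he'
    right; left
    refine ⟨m, c, a, b, a', b', hnm, hc, ?_, ?_⟩
    · intro hdet
      have hndd : ¬ q ∣ q' := fun h => hqg (by
        rw [hgg']
        exact (h.trans (dvd_pow_self q' (by omega))).mul_right _)
      have e1 : C a * q' = C a' * q := by
        rw [hab, hab']
        have : (C (a * b') : MvPolynomial (Fin 2) K) = C (b * a') := by
          congr 1
          linear_combination hdet
        simp only [map_mul] at this
        linear_combination (X 1) * this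
      have e2 : C b * q' = C b' * q := by
        rw [hab, hab']
        have : (C (a * b') : MvPolynomial (Fin 2) K) = C (b * a') := by
          congr 1
          linear_combination hdet
        simp only [map_mul] at this
        linear_combination -(X 0) * this
      have key : ∀ s t : K, s ≠ 0 → C s * q' = C t * q → False := by
        intro s t hs hst
        apply hndd
        refine ⟨C (t / s), ?_⟩
        have h5 : (C s : MvPolynomial (Fin 2) K) ≠ 0 := by
          rw [Ne, C_eq_zero]
          exact hs
        apply mul_left_cancel₀ h5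
        rw [hst, mul_left_comm, ← map_mul, mul_div_cancel₀ _ hs]
        ring
      by_cases ha : a = 0
      · by_cases hbb : b = 0
        · apply hq.ne_zero
          rw [hab, ha, hbb]
          simp
        · exact key b b' hbb e2
      · exact key a a' ha e1
    · rw [hfg, hgg', ← hab, ← hab', mul_pow]
      ring

end Pool.Agent.H87R3.EG
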